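import Pool.Agent.Y994.KW.Stm
import Pool.Agent.H974R2.BK

/-!
# Project KW, step BKX: many disjoint crossings of a long rectangle are unlikely
-/

set_option autoImplicit false

namespace Y280.KW

open Y994.KW Filter Topology

/-! ## probabilities -/

theorem half_ok : H974.Ok (fun _ : Pt => (1 / 2 : ℝ)) := fun _ => by norm_num

theorem prF_eq (S : Finset Pt) (A : Finset Pt → Prop) :
    prF S A = H974.Pr (fun _ => (1 / 2 : ℝ)) S A := by
  classical
  unfold prF H974.Pr H974.Ex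
  have h1 : ∀ F ∈ S.powerset, (∏ e ∈ F, (1 / 2 : ℝ)) * (∏ e ∈ S \ F, (1 - (1 / 2 : ℝ))) *
      H974.ind (A F) = (1 / 2 : ℝ) ^ S.card * H974.ind (A F) := by
    intro F hF
    have hFS := Finset.mem_powerset.mp hF
    rw [Finset.prod_const, Finset.prod_const, show (1 - (1 / 2 : ℝ)) = 1 / 2 by norm_num,
      ← pow_add, add_comm, Finset.card_sdiff_add_card_eq_card hFS]
  rw [Finset.sum_congr rfl h1, ← Finset.mul_sum, Finset.card_filter]
  have h2 : ∀ F ∈ S.powerset, H974.ind (A F) = if A F then (1 : ℝ) else 0 := by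
    intro F _
    by_cases h : A F
    · rw [H974.ind_of h, if_pos h]
    · rw [H974.ind_not_of h, if_neg h]
  rw [Finset.sum_congr rfl h2]
  push_cast
  rw [div_eq_mul_inv, mul_comm]
  congr 1
  rw [one_div, inv_pow]

/-- union bound -/
theorem Pr_exists_le {ι : Type} [Fintype ι] {p : Pt → ℝ} (hp : H974.Ok p) (S : Finset Pt)
    (B : ι → Finset Pt → Prop) :
    H974.Pr p S (fun F => ∃ i, B i F) ≤ ∑ i, H974.Pr p S (B i) := by
  classical
  have : ∑ i, H974.Pr p S (B i) = H974.Ex p S (fun F => ∑ i, H974.ind (B i F)) := by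
    rw [H974.Ex_sum]
    rfl
  rw [this]
  apply H974.Ex_mono hp
  intro F _
  by_cases h : ∃ i, B i F
  · obtain ⟨i, hi⟩ := h
    rw [H974.ind_of ⟨i, hi⟩, ← H974.ind_of hi]
    exact Finset.single_le_sum (f := fun i => H974.ind (B i F))
      (fun j _ => H974.ind_nonneg _) (Finset.mem_univ i)
  · rw [H974.ind_not_of h]
    exact Finset.sum_nonneg (fun j _ => H974.ind_nonneg _)

/-- `r` disjoint occurrences -/
def DN (r : ℕ) (A : Finset Pt → Prop) (F : Finset Pt) : Prop :=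
  ∃ f : Fin r → Finset Pt, (∀ i, f i ⊆ F) ∧ (∀ i j, i ≠ j → Disjoint (f i) (f j)) ∧ ∀ i, A (f i)

theorem DN_incr (S : Finset Pt) (r : ℕ) (A : Finset Pt → Prop) : H974.IncrE S (DN r A) := by
  rintro F G hFG _ ⟨f, h1, h2, h3⟩
  exact ⟨f, fun i => (h1 i).trans hFG, h2, h3⟩

theorem DN_le {p : Pt → ℝ} (hp : H974.Ok p) {S : Finset Pt} {A : Finset Pt → Prop}
    (hA : H974.IncrE S A) (r : ℕ) :
    H974.Pr p S (DN r A) ≤ (H974.Pr p S A) ^ r := by
  induction r with
  | zero => simpa using H974.Pr_le_one hp S _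
  | succ r ih =>
    have h1 : H974.Pr p S (DN (r + 1) A) ≤ H974.Pr p S (H974.DisjOcc A (DN r A)) := by
      apply H974.Pr_mono hp
      rintro F _ ⟨f, h1, h2, h3⟩
      refine ⟨f 0, Finset.univ.biUnion (fun i : Fin r => f i.succ), h1 0, ?_, ?_, h3 0, ?_⟩
      · exact Finset.biUnion_subset.mpr (fun i _ => h1 _)
      · rw [Finset.disjoint_biUnion_right]
        intro i _
        exact h2 _ _ (Fin.succ_ne_zero i).symm
      · refine ⟨fun i => f i.succ, fun i => ?_, fun i j hij => ?_, fun i => h3 _⟩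
        · exact Finset.subset_biUnion_of_mem (fun i : Fin r => f i.succ) (Finset.mem_univ i)
        · exact h2 _ _ (fun h => hij (Fin.succ_injective _ h))
    have h2 := H974.bk hp hA (DN_incr S r A)
    have h3 := mul_le_mul_of_nonneg_left ih (H974.Pr_nonneg hp S A)
    calc _ ≤ _ := h1
      _ ≤ _ := h2
      _ ≤ _ := h3
      _ = _ := by rw [pow_succ]; ring

/-! ## elementary properties of the crossings -/

theorem OB_mono {ε : ℤ} {F G : Finset Pt} (h : F ⊆ G) {x y : Pt} (hxy : OB ε F x y) :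
    OB ε G x y := by
  obtain ⟨h1, h2, h3⟩ := hxy
  refine ⟨h1, h2, ?_⟩
  rcases h3 with h3 | h3 | h3 | h3
  · exact Or.inl ⟨h3.1, h h3.2⟩
  · exact Or.inr (Or.inl ⟨h3.1, h h3.2⟩)
  · exact Or.inr (Or.inr (Or.inl ⟨h3.1, h h3.2⟩))
  · exact Or.inr (Or.inr (Or.inr ⟨h3.1, h h3.2⟩))

theorem OB_symm {ε : ℤ} {F : Finset Pt} {x y : Pt} (hxy : OB ε F x y) : OB ε F y x := by
  obtain ⟨h1, h2, h3⟩ := hxy
  refine ⟨h2, h1, ?_⟩
  tauto

theorem RT_mono {ε : ℤ} {F G : Finset Pt} (h : F ⊆ G) {x y : Pt}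
    (hxy : Relation.ReflTransGen (OB ε F) x y) : Relation.ReflTransGen (OB ε G) x y := by
  induction hxy with
  | refl => exact Relation.ReflTransGen.refl
  | tail _ h1 ih => exact ih.tail (OB_mono h h1)

theorem HC_mono {ε : ℤ} {w : ℕ} {F G : Finset Pt} (h : F ⊆ G) (hF : HC ε w F) : HC ε w G := by
  obtain ⟨x, y, h1, h2, h3⟩ := hF
  exact ⟨x, y, h1, h2, RT_mono h h3⟩

/-- vertical crossing of the rows from `a` to `a + h` -/
def Vc (ε a : ℤ) (h : ℕ) (F : Finset Pt) : Prop :=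
  ∃ x y : Pt, x.2 = a ∧ y.2 = a + h ∧ Relation.ReflTransGen (OB ε F) x y

theorem Vc_mono {ε a : ℤ} {h : ℕ} {F G : Finset Pt} (hFG : F ⊆ G) (hF : Vc ε a h F) :
    Vc ε a h G := by
  obtain ⟨x, y, h1, h2, h3⟩ := hF
  exact ⟨x, y, h1, h2, RT_mono hFG h3⟩

/-- vertical shift -/
def shf (a : ℤ) : Pt ↪ Pt := ⟨fun x => (x.1, x.2 + a), fun x y h => by
  simp only [Prod.mk.injEq, add_left_inj] at h
  exact Prod.ext h.1 h.2⟩

@[simp] theorem shf_apply (a : ℤ) (x : Pt) : shf a x = (x.1, x.2 + a) := rfl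

theorem mem_map_shf {a : ℤ} {F : Finset Pt} {x : Pt} : x ∈ F.map (shf a) ↔ (x.1, x.2 - a) ∈ F := by
  rw [Finset.mem_map]
  constructor
  · rintro ⟨y, hy, rfl⟩
    simpa using hy
  · intro h
    exact ⟨_, h, by simp⟩

theorem OB_shift {ε a : ℤ} {F : Finset Pt} {x y : Pt} (h : OB ε (F.map (shf a)) x y) :
    OB (ε - a) F (x.1, x.2 - a) (y.1, y.2 - a) := by
  obtain ⟨h1, h2, h3⟩ := h
  unfold Pty at h1 h2
  refine ⟨by unfold Pty; simp only; omega, by unfold Pty; simp only; omega, ?_⟩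
  simp only [mem_map_shf] at h3
  obtain ⟨x1, x2⟩ := x
  obtain ⟨y1, y2⟩ := y
  simp only [Prod.mk_add_mk, Prod.mk.injEq] at h3 ⊢
  rcases h3 with h3 | h3 | h3 | h3
  · exact Or.inl ⟨⟨h3.1.1, by omega⟩, h3.2⟩
  · exact Or.inr (Or.inl ⟨⟨h3.1.1, by omega⟩, h3.2⟩)
  · exact Or.inr (Or.inr (Or.inl ⟨⟨h3.1.1, by omega⟩, h3.2⟩))
  · exact Or.inr (Or.inr (Or.inr ⟨⟨h3.1.1, by omega⟩, h3.2⟩))

theorem RT_shift {ε a : ℤ} {F : Finset Pt} {x y : Pt}
    (h : Relation.ReflTransGen (OB ε (F.map (shf a))) x y) :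
    Relation.ReflTransGen (OB (ε - a) F) (x.1, x.2 - a) (y.1, y.2 - a) := by
  induction h with
  | refl => exact Relation.ReflTransGen.refl
  | tail _ h ih => exact ih.tail (OB_shift h)

theorem HC_shift {ε a : ℤ} {w : ℕ} {F : Finset Pt} (h : HC ε w (F.map (shf a))) :
    HC (ε - a) w F := by
  obtain ⟨x, y, h1, h2, h3⟩ := h
  exact ⟨(x.1, x.2 - a), (y.1, y.2 - a), h1, h2, RT_shift h3⟩

theorem Vc_shift {ε a : ℤ} {h : ℕ} {F : Finset Pt} (hF : Vc ε a h (F.map (shf a))) :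
    VC (ε - a) h F := by
  obtain ⟨x, y, h1, h2, h3⟩ := hF
  refine ⟨_, _, ?_, ?_, RT_shift h3⟩
  · simp [h1]
  · simp [h2]

theorem mem_Tl {w h : ℕ} {x : Pt} :
    x ∈ Tl w h ↔ 0 ≤ x.1 ∧ x.1 < w ∧ 0 ≤ x.2 ∧ x.2 < h := by
  unfold Tl
  rw [Finset.mem_image]
  constructor
  · rintro ⟨p, hp, rfl⟩
    rw [Finset.mem_product, Finset.mem_range, Finset.mem_range] at hp
    simp only
    omega
  · rintro ⟨h1, h2, h3, h4⟩
    refine ⟨(x.1.toNat, x.2.toNat), ?_, ?_⟩
    · rw [Finset.mem_product, Finset.mem_range, Finset.mem_range]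
      simp only
      omega
    · apply Prod.ext
      · simp only; omega
      · simp only; omega

/-- the block of rows from `a` to `a + h` -/
def Rr (N : ℕ) (a : ℤ) (h : ℕ) : Finset Pt := (Tl N h).map (shf a)

theorem mem_Rr {N h : ℕ} {a : ℤ} {x : Pt} :
    x ∈ Rr N a h ↔ 0 ≤ x.1 ∧ x.1 < N ∧ a ≤ x.2 ∧ x.2 < a + h := by
  unfold Rr
  rw [mem_map_shf, mem_Tl]
  simp only
  omega

/-- the probability of an event in a block of rows -/
theorem block_le {S : Finset Pt} {N h : ℕ} {a : ℤ} {A B : Finset Pt → Prop}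
    (hA : ∀ F G : Finset Pt, F ⊆ G → A F → A G)
    (hAB : ∀ F : Finset Pt, A (F.map (shf a)) → B F) :
    H974.Pr (fun _ => (1 / 2 : ℝ)) S (fun F => A (F ∩ Rr N a h)) ≤
      H974.Pr (fun _ => (1 / 2 : ℝ)) (Tl N h) B := by
  have h1 : H974.Pr (fun _ => (1 / 2 : ℝ)) S (fun F => A (F ∩ Rr N a h)) =
      H974.Pr (fun _ => (1 / 2 : ℝ)) (S ∩ Rr N a h) (fun F => A (F ∩ Rr N a h)) := by
    apply H974.Pr_local Finset.inter_subset_left
    intro F hF
    have : F ∩ (S ∩ Rr N a h) ∩ Rr N a h = F ∩ Rr N a h := by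
      ext x
      simp only [Finset.mem_inter]
      constructor
      · rintro ⟨⟨h1, h2, h3⟩, h4⟩
        exact ⟨h1, h4⟩
      · rintro ⟨h1, h2⟩
        exact ⟨⟨h1, hF h1, h2⟩, h2⟩
    rw [this]
  have h2 : H974.Pr (fun _ => (1 / 2 : ℝ)) (S ∩ Rr N a h) (fun F => A (F ∩ Rr N a h)) ≤
      H974.Pr (fun _ => (1 / 2 : ℝ)) (S ∩ Rr N a h) A := by
    apply H974.Pr_mono half_ok
    intro F _ hF
    exact hA _ _ Finset.inter_subset_left hF
  have h3 : H974.Pr (fun _ => (1 / 2 : ℝ)) (S ∩ Rr N a h) A ≤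
      H974.Pr (fun _ => (1 / 2 : ℝ)) (Rr N a h) A := by
    apply H974.Pr_mono_set half_ok Finset.inter_subset_right
    intro F G h1 _ h2
    exact hA F G h1 h2
  have h4 : H974.Pr (fun _ => (1 / 2 : ℝ)) (Rr N a h) A =
      H974.Pr (fun _ => (1 / 2 : ℝ)) (Tl N h) (fun F => A (F.map (shf a))) := by
    unfold Rr
    exact H974.Pr_map _ _ _ _
  have h5 : H974.Pr (fun _ => (1 / 2 : ℝ)) (Tl N h) (fun F => A (F.map (shf a))) ≤
      H974.Pr (fun _ => (1 / 2 : ℝ)) (Tl N h) B := by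
    apply H974.Pr_mono half_ok
    intro F _ hF
    exact hAB F hF
  rw [h1]
  exact (h2.trans h3).trans (h4.le.trans h5)

/-! ## the bound for one block -/

theorem one_block (hR : S_RSW) (hX : S_EXCL) : ∃ p : ℝ, 1 / 2 ≤ p ∧ p < 1 ∧
    ∀ (N : ℕ) (ε : ℤ), 1 ≤ N →
      H974.Pr (fun _ => (1 / 2 : ℝ)) (Tl N (3 * N)) (HC ε N) ≤ p ∧
      H974.Pr (fun _ => (1 / 2 : ℝ)) (Tl N N) (VC ε N) ≤ p := by
  obtain ⟨c3, hc3, h3⟩ := hR 3 (by norm_num)
  obtain ⟨c1, hc1, h1⟩ := hR 1 le_rfl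
  have hcmp : ∀ (S : Finset Pt) (A : Finset Pt → Prop),
      H974.Pr (fun _ => (1 / 2 : ℝ)) S (fun F => A (S \ F)) =
        H974.Pr (fun _ => (1 / 2 : ℝ)) S A := by
    intro S A
    rw [← H974.Pr_compl]
    norm_num
  refine ⟨max (1 / 2) (1 - min c3 c1), le_max_left _ _, ?_, ?_⟩
  · rw [max_lt_iff]
    exact ⟨by norm_num, by have := lt_min hc3 hc1; linarith⟩
  · intro N ε hN
    constructor
    · have ha := (h3 N (ε + 1) hN).2
      rw [prF_eq] at ha
      have hb : H974.Pr (fun _ => (1 / 2 : ℝ)) (Tl N (3 * N)) (HC ε N) ≤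
          H974.Pr (fun _ => (1 / 2 : ℝ)) (Tl N (3 * N))
            (fun F => ¬ VC (ε + 1) (3 * N) (Tl N (3 * N) \ F)) := by
        apply H974.Pr_mono half_ok
        intro F hF hH
        exact hX N (3 * N) ε F _ hN (by omega) hF Finset.sdiff_subset Finset.disjoint_sdiff hH
      rw [H974.Pr_not, hcmp] at hb
      have := min_le_left c3 c1
      exact (hb.trans (by linarith)).trans (le_max_right _ _)
    · have ha := (h1 N (ε - 1) hN).1
      rw [prF_eq, one_mul] at ha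
      have hb : H974.Pr (fun _ => (1 / 2 : ℝ)) (Tl N N) (VC ε N) ≤
          H974.Pr (fun _ => (1 / 2 : ℝ)) (Tl N N) (fun F => ¬ HC (ε - 1) N (Tl N N \ F)) := by
        apply H974.Pr_mono half_ok
        intro F hF hV hH
        refine hX N N (ε - 1) _ F hN hN Finset.sdiff_subset hF Finset.sdiff_disjoint hH ?_
        rwa [sub_add_cancel]
      rw [H974.Pr_not, hcmp] at hb
      have := min_le_right c3 c1
      exact (hb.trans (by linarith)).trans (le_max_right _ _)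

/-! ## geometry -/

theorem OB_lev {ε : ℤ} {F : Finset Pt} {x y : Pt} (h : OB ε F x y) :
    (y.2 = x.2 + 1 ∨ x.2 = y.2 + 1) ∧ (∃ τ ∈ F, τ.2 = min x.2 y.2) ∧
    ∀ R : Finset Pt, (∀ τ ∈ F, τ.2 = min x.2 y.2 → τ ∈ R) → OB ε (F ∩ R) x y := by
  obtain ⟨h1, h2, h3⟩ := h
  obtain ⟨x1, x2⟩ := x
  obtain ⟨y1, y2⟩ := y
  simp only [Prod.mk_add_mk, Prod.mk.injEq] at h3 ⊢
  refine ⟨by omega, ?_, ?_⟩
  · rcases h3 with h3 | h3 | h3 | h3
    · exact ⟨_, h3.2, by simp only; omega⟩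
    · exact ⟨_, h3.2, by simp only; omega⟩
    · exact ⟨_, h3.2, by simp only; omega⟩
    · exact ⟨_, h3.2, by simp only; omega⟩
  · intro R hR
    refine ⟨h1, h2, ?_⟩
    simp only [Prod.mk_add_mk, Prod.mk.injEq, Finset.mem_inter]
    rcases h3 with h3 | h3 | h3 | h3
    · exact Or.inl ⟨h3.1, h3.2, hR _ h3.2 (by simp only; omega)⟩
    · exact Or.inr (Or.inl ⟨h3.1, h3.2, hR _ h3.2 (by simp only; omega)⟩)
    · exact Or.inr (Or.inr (Or.inl ⟨h3.1, h3.2, hR _ h3.2 (by simp only; omega)⟩))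
    · exact Or.inr (Or.inr (Or.inr ⟨h3.1, h3.2, hR _ h3.2 (by simp only; omega)⟩))

/-- a path which goes up contains a vertical crossing -/
theorem cross_up {ε a : ℤ} {h : ℕ} {F R : Finset Pt} (hh : 1 ≤ h)
    (hR : ∀ τ ∈ F, a ≤ τ.2 → τ.2 < a + h → τ ∈ R) {x y : Pt} (hx : x.2 ≤ a) (hy : a + h ≤ y.2)
    (hxy : Relation.ReflTransGen (OB ε F) x y) : Vc ε a h (F ∩ R) := by
  have key : ∀ z : Pt, Relation.ReflTransGen (OB ε F) x z →
      Vc ε a h (F ∩ R) ∨ z.2 ≤ a ∨ (a ≤ z.2 ∧ z.2 < a + h ∧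
        ∃ x' : Pt, x'.2 = a ∧ Relation.ReflTransGen (OB ε (F ∩ R)) x' z) := by
    intro z hz
    induction hz with
    | refl => exact Or.inr (Or.inl hx)
    | @tail z w _ hs ih =>
      obtain ⟨hl, -, hr⟩ := OB_lev hs
      have hstep : a ≤ min z.2 w.2 → min z.2 w.2 < a + h → OB ε (F ∩ R) z w := by
        intro h1 h2
        exact hr R (fun τ hτ he => hR τ hτ (by rw [he]; exact h1) (by rw [he]; exact h2))
      rcases ih with ih | ih | ⟨ih1, ih2, x', hx', ih3⟩
      · exact Or.inl ih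
      · by_cases hw : w.2 ≤ a
        · exact Or.inr (Or.inl hw)
        · have hz : z.2 = a := by omega
          have hst := hstep (by omega) (by omega)
          by_cases hb : w.2 < a + h
          · exact Or.inr (Or.inr ⟨by omega, hb, z, hz, Relation.ReflTransGen.single hst⟩)
          · exact Or.inl ⟨z, w, hz, by omega, Relation.ReflTransGen.single hst⟩
      · by_cases hw : w.2 ≤ a
        · exact Or.inr (Or.inl hw)
        · have hst := hstep (by omega) (by omega)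
          by_cases hb : w.2 < a + h
          · exact Or.inr (Or.inr ⟨by omega, hb, x', hx', ih3.tail hst⟩)
          · exact Or.inl ⟨x', w, hx', by omega, ih3.tail hst⟩
  rcases key y hxy with h1 | h1 | ⟨h1, h2, -⟩
  · exact h1
  · omega
  · omega

theorem RT_symm {ε : ℤ} {F : Finset Pt} {x y : Pt} (h : Relation.ReflTransGen (OB ε F) x y) :
    Relation.ReflTransGen (OB ε F) y x := by
  induction h with
  | refl => exact Relation.ReflTransGen.refl
  | tail _ h1 ih => exact ih.head (OB_symm h1)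

/-- the types of crossings -/
def Ty (N : ℕ) (ε : ℤ) (b : Bool) (j : ℤ) (F : Finset Pt) : Prop :=
  if b then HC ε N (F ∩ Rr N ((j - 1) * N) (3 * N)) else Vc ε (j * N) N (F ∩ Rr N (j * N) N)

theorem geom {N m : ℕ} {ε : ℤ} (hN : 1 ≤ N) {F : Finset Pt} (hF : F ⊆ Tl N (m * N))
    (hH : HC ε N F) : ∃ b : Bool, ∃ j : Fin (m + 1), Ty N ε b j F := by
  obtain ⟨x, y, hx, hy, hxy⟩ := hH
  have hN' : (1 : ℤ) ≤ N := by exact_mod_cast hN
  -- all corners of the path have levels between `0` and `m N`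
  have hend : ∀ z w : Pt, OB ε F z w → 0 ≤ z.2 ∧ z.2 ≤ m * N ∧ 0 ≤ w.2 ∧ w.2 ≤ m * N := by
    intro z w h
    obtain ⟨h1, ⟨τ, h2, h3⟩, -⟩ := OB_lev h
    have := mem_Tl.mp (hF h2)
    push_cast at this
    omega
  have hxne : x ≠ y := by
    intro h
    rw [h, hy] at hx
    omega
  have hxl : 0 ≤ x.2 ∧ x.2 ≤ m * N := by
    rcases Relation.ReflTransGen.cases_head hxy with h | ⟨z, h, -⟩
    · exact absurd h hxne
    · have := hend _ _ h
      exact ⟨this.1, this.2.1⟩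
  have hall : ∀ z, Relation.ReflTransGen (OB ε F) x z → 0 ≤ z.2 ∧ z.2 ≤ m * N := by
    intro z hz
    rcases Relation.ReflTransGen.cases_tail hz with h | ⟨w, -, h⟩
    · rw [h]; exact hxl
    · have := hend _ _ h
      exact ⟨this.2.2.1, this.2.2.2⟩
  have hcol : ∀ τ ∈ F, 0 ≤ τ.1 ∧ τ.1 < N := fun τ h => by
    have := mem_Tl.mp (hF h)
    exact ⟨this.1, this.2.1⟩
  -- the block of the starting point
  set i : ℤ := x.2 / N with hi
  have hi1 : i * N ≤ x.2 := Int.ediv_mul_le _ (by omega)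
  have hi2 : x.2 < (i + 1) * N := Int.lt_ediv_add_one_mul_self _ (by omega)
  have hi0 : 0 ≤ i := Int.ediv_nonneg hxl.1 (by omega)
  have him : i ≤ m := by
    by_contra hcon
    have : ((m : ℤ) + 1) * N ≤ i * N := mul_le_mul_of_nonneg_right (by omega) (by omega)
    nlinarith [hxl.2]
  by_cases hup : ∃ z, Relation.ReflTransGen (OB ε F) x z ∧ (i + 2) * N ≤ z.2
  · obtain ⟨z, hz, hz2⟩ := hup
    have hm : i + 2 ≤ m := by
      by_contra hcon
      have : ((m : ℤ) + 1) * N ≤ (i + 2) * N := mul_le_mul_of_nonneg_right (by omega) (by omega)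
      nlinarith [(hall z hz).2]
    refine ⟨false, ⟨(i + 1).toNat, by omega⟩, ?_⟩
    have hc : (((⟨(i + 1).toNat, by omega⟩ : Fin (m + 1)) : ℕ) : ℤ) = i + 1 := by
      simp only
      omega
    have : Ty N ε false (i + 1) F := by
      unfold Ty
      simp only [Bool.false_eq_true, if_false]
      refine cross_up (x := x) (y := z) hN ?_ (by linarith) (by linarith) hz
      intro τ hτ h1 h2
      exact mem_Rr.mpr ⟨(hcol τ hτ).1, (hcol τ hτ).2, h1, h2⟩
    rw [← hc] at this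
    exact this
  by_cases hdn : ∃ z, Relation.ReflTransGen (OB ε F) x z ∧ z.2 ≤ (i - 1) * N
  · obtain ⟨z, hz, hz2⟩ := hdn
    have hm : 0 ≤ i - 1 := by
      by_contra hcon
      have : (i - 1) * N ≤ (-1) * N := mul_le_mul_of_nonneg_right (by omega) (by omega)
      nlinarith [(hall z hz).1]
    refine ⟨false, ⟨(i - 1).toNat, by omega⟩, ?_⟩
    have hc : (((⟨(i - 1).toNat, by omega⟩ : Fin (m + 1)) : ℕ) : ℤ) = i - 1 := by
      simp only
      omega
    have : Ty N ε false (i - 1) F := by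
      unfold Ty
      simp only [Bool.false_eq_true, if_false]
      refine cross_up (x := z) (y := x) hN ?_ (by linarith) (by linarith) (RT_symm hz)
      intro τ hτ h1 h2
      exact mem_Rr.mpr ⟨(hcol τ hτ).1, (hcol τ hτ).2, h1, h2⟩
    rw [← hc] at this
    exact this
  -- the path stays in three rows of blocks
  push Not at hup hdn
  refine ⟨true, ⟨i.toNat, by omega⟩, ?_⟩
  have hc : (((⟨i.toNat, by omega⟩ : Fin (m + 1)) : ℕ) : ℤ) = i := by
    simp only
    omega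
  have : Ty N ε true i F := by
    unfold Ty
    simp only [if_true]
    refine ⟨x, y, hx, hy, ?_⟩
    have key : ∀ z, Relation.ReflTransGen (OB ε F) x z →
        Relation.ReflTransGen (OB ε (F ∩ Rr N ((i - 1) * N) (3 * N))) x z := by
      intro z hz
      induction hz with
      | refl => exact Relation.ReflTransGen.refl
      | @tail z w hz hs ih =>
        refine ih.tail ?_
        obtain ⟨hl, -, hr⟩ := OB_lev hs
        apply hr
        intro τ hτ he
        have z1 := hup z hz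
        have z2 := hdn z hz
        have w1 := hup w (hz.tail hs)
        have w2 := hdn w (hz.tail hs)
        refine mem_Rr.mpr ⟨(hcol τ hτ).1, (hcol τ hτ).2, ?_, ?_⟩
        · rw [he]
          exact le_min z2.le w2.le
        · rw [he]
          push_cast
          have : min z.2 w.2 ≤ z.2 := min_le_left _ _
          nlinarith
    exact key y hxy
  rw [← hc] at this
  exact this

theorem Ty_mono {N : ℕ} {ε : ℤ} {b : Bool} {j : ℤ} {F G : Finset Pt} (h : F ⊆ G)
    (hF : Ty N ε b j F) : Ty N ε b j G := by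
  unfold Ty at hF ⊢
  cases b with
  | true =>
    simp only [if_true] at hF ⊢
    exact HC_mono (Finset.inter_subset_inter_right h) hF
  | false =>
    simp only [Bool.false_eq_true, if_false] at hF ⊢
    exact Vc_mono (Finset.inter_subset_inter_right h) hF

/-! ## the result -/

theorem pigeon {N m r : ℕ} {ε : ℤ} (hN : 1 ≤ N) {F : Finset Pt} (hF : F ⊆ Tl N (m * N))
    (f : Fin r → Finset Pt) (h1 : ∀ i, f i ⊆ F) (h2 : ∀ i j, i ≠ j → Disjoint (f i) (f j))
    (h3 : ∀ i, HC ε N (f i)) :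
    ∃ t : Bool × Fin (m + 1), DN (r / (2 * (m + 1))) (Ty N ε t.1 t.2) F := by
  classical
  have hg : ∀ i, ∃ t : Bool × Fin (m + 1), Ty N ε t.1 t.2 (f i) := by
    intro i
    obtain ⟨b, j, h⟩ := geom hN ((h1 i).trans hF) (h3 i)
    exact ⟨(b, j), h⟩
  choose g hg using hg
  have hcard : (Finset.univ : Finset (Bool × Fin (m + 1))).card * (r / (2 * (m + 1))) ≤
      (Finset.univ : Finset (Fin r)).card := by
    simp only [Finset.card_univ, Fintype.card_prod, Fintype.card_bool, Fintype.card_fin]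
    exact Nat.mul_div_le _ _
  obtain ⟨t, -, ht⟩ := Finset.exists_le_card_fiber_of_mul_le_card_of_maps_to
    (f := g) (fun i _ => Finset.mem_univ (g i)) ⟨(true, 0), Finset.mem_univ _⟩ hcard
  obtain ⟨s, hs, hsc⟩ := Finset.exists_subset_card_eq ht
  refine ⟨t, fun k => f (s.orderEmbOfFin hsc k), fun k => h1 _, fun k l hkl => h2 _ _ ?_,
    fun k => ?_⟩
  · intro h
    exact hkl ((s.orderEmbOfFin hsc).injective h)
  · have : s.orderEmbOfFin hsc k ∈ s := Finset.orderEmbOfFin_mem s hsc k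
    have h := (Finset.mem_filter.mp (hs this)).2
    have h' := hg (s.orderEmbOfFin hsc k)
    rw [h] at h'
    exact h'

theorem Ty_le {p : ℝ} {N : ℕ} {S : Finset Pt}
    (hp : ∀ (ε : ℤ), H974.Pr (fun _ => (1 / 2 : ℝ)) (Tl N (3 * N)) (HC ε N) ≤ p ∧
      H974.Pr (fun _ => (1 / 2 : ℝ)) (Tl N N) (VC ε N) ≤ p) (ε : ℤ) (b : Bool) (j : ℤ) :
    H974.Pr (fun _ => (1 / 2 : ℝ)) S (Ty N ε b j) ≤ p := by
  cases b with
  | true =>
    refine le_trans ?_ (hp (ε - (j - 1) * N)).1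
    have := block_le (S := S) (N := N) (h := 3 * N) (a := (j - 1) * N) (A := HC ε N)
      (B := HC (ε - (j - 1) * N) N) (fun F G h => HC_mono h) (fun F h => HC_shift h)
    refine le_trans (le_of_eq ?_) this
    apply H974.Pr_congr
    intro F _
    unfold Ty
    simp only [if_true]
  | false =>
    refine le_trans ?_ (hp (ε - j * N)).2
    have := block_le (S := S) (N := N) (h := N) (a := j * N) (A := Vc ε (j * N) N)
      (B := VC (ε - j * N) N) (fun F G h => Vc_mono h) (fun F h => Vc_shift h)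
    refine le_trans (le_of_eq ?_) this
    apply H974.Pr_congr
    intro F _
    unfold Ty
    simp only [Bool.false_eq_true, if_false]

theorem t_BKX : S_RSW → S_EXCL → S_BKX := by
  intro hR hX
  obtain ⟨p, hp1, hp2, hp⟩ := one_block hR hX
  have hp0 : 0 < p := by linarith
  refine ⟨4 / p, p, by positivity, hp0, hp2, ?_⟩
  intro N m r ε hN hm
  have hm' : (1 : ℝ) ≤ m := by exact_mod_cast hm
  rw [prF_eq]
  set T : ℕ := 2 * (m + 1) with hT
  have h1 : H974.Pr (fun _ => (1 / 2 : ℝ)) (Tl N (m * N)) (fun F => ∃ f : Fin r → Finset Pt,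
      (∀ i, f i ⊆ F) ∧ (∀ i j, i ≠ j → Disjoint (f i) (f j)) ∧ ∀ i, HC ε N (f i)) ≤
      H974.Pr (fun _ => (1 / 2 : ℝ)) (Tl N (m * N))
        (fun F => ∃ t : Bool × Fin (m + 1), DN (r / T) (Ty N ε t.1 t.2) F) := by
    apply H974.Pr_mono half_ok
    rintro F hF ⟨f, h1, h2, h3⟩
    exact pigeon hN hF f h1 h2 h3
  have h2 := Pr_exists_le half_ok (Tl N (m * N))
    (fun (t : Bool × Fin (m + 1)) F => DN (r / T) (Ty N ε t.1 t.2) F)
  have h3 : ∀ t : Bool × Fin (m + 1), H974.Pr (fun _ => (1 / 2 : ℝ)) (Tl N (m * N))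
      (fun F => DN (r / T) (Ty N ε t.1 t.2) F) ≤ p ^ (r / T) := by
    intro t
    refine le_trans (DN_le half_ok (fun F G h _ => Ty_mono h) _) ?_
    exact pow_le_pow_left₀ (H974.Pr_nonneg half_ok _ _) (Ty_le (hp N · hN) _ _ _) _
  have h4 : ∑ t : Bool × Fin (m + 1), H974.Pr (fun _ => (1 / 2 : ℝ)) (Tl N (m * N))
      (fun F => DN (r / T) (Ty N ε t.1 t.2) F) ≤ T * p ^ (r / T) := by
    refine le_trans (Finset.sum_le_sum (fun t _ => h3 t)) ?_
    rw [Finset.sum_const, nsmul_eq_mul]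
    apply le_of_eq
    congr 1
    simp [hT]
  have h5 : (p : ℝ) ^ (r / T) ≤ p⁻¹ * p ^ ((r : ℝ) / (4 / p * m)) := by
    have hT0 : (0 : ℝ) < T := by rw [hT]; positivity
    have e1 : (r : ℝ) / T - 1 ≤ ((r / T : ℕ) : ℝ) := by
      have := Nat.lt_div_mul_add (a := r) (b := T) (by omega)
      have h' : (r : ℝ) < ((r / T : ℕ) : ℝ) * T + T := by exact_mod_cast this
      rw [sub_le_iff_le_add, div_le_iff₀ hT0]
      nlinarith
    have e2 : (r : ℝ) / (4 / p * m) ≤ (r : ℝ) / T := by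
      apply div_le_div_of_nonneg_left (by positivity) hT0
      have : (T : ℝ) ≤ 4 * m := by
        rw [hT]; push_cast; linarith
      have h4 : (4 : ℝ) ≤ 4 / p := by
        rw [le_div_iff₀ hp0]; linarith
      nlinarith
    calc (p : ℝ) ^ (r / T) = p ^ (((r / T : ℕ) : ℝ)) := (Real.rpow_natCast _ _).symm
      _ ≤ p ^ ((r : ℝ) / (4 / p * m) - 1) := by
          apply Real.rpow_le_rpow_of_exponent_ge hp0 hp2.le
          linarith
      _ = p⁻¹ * p ^ ((r : ℝ) / (4 / p * m)) := by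
          rw [Real.rpow_sub hp0, Real.rpow_one]
          field_simp
  have hT4 : (T : ℝ) ≤ 4 * m := by
    rw [hT]; push_cast; linarith
  calc _ ≤ _ := h1
    _ ≤ _ := h2
    _ ≤ _ := h4
    _ ≤ (4 * m) * (p⁻¹ * p ^ ((r : ℝ) / (4 / p * m))) := by
        apply mul_le_mul hT4 h5 (by positivity) (by positivity)
    _ = _ := by
        rw [div_eq_mul_inv 4 p]
        ring

end Y280.KW
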